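import Mathlib

namespace Pool.Agent.H11.Pol

/-- `P` with rank function `rank` is an abstract polyhedron (abstract polytope of rank 3). -/
structure IsPolyhedron (P : Type) [PartialOrder P] (rank : P → ℤ) : Prop where
  mono : StrictMono rank
  onto : Set.range rank = {-1, 0, 1, 2, 3}
  least : ∃! F : P, ∀ G, F ≤ G
  greatest : ∃! F : P, ∀ G, G ≤ F
  flag_card : ∀ Φ : Set P, IsMaxChain (· ≤ ·) Φ → Φ.ncard = 5
  diamond : ∀ (F G : P) (j : ℤ), F ≤ G → rank F = j - 1 → rank G = j + 1 →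
    {H | rank H = j ∧ F ≤ H ∧ H ≤ G}.ncard = 2
  connected : ∀ Φ Ψ : Set P, IsMaxChain (· ≤ ·) Φ → IsMaxChain (· ≤ ·) Ψ →
    Relation.ReflTransGen
      (fun A B : Set P => IsMaxChain (· ≤ ·) B ∧ Φ ∩ Ψ ⊆ B ∧ (A \ B).ncard = 1 ∧ (B \ A).ncard = 1)
      Φ Ψ

/-- The faces of ranks `j` and `j + 1` lying in `S` form an `n`-gon: they can be listed cyclically
as `a 0, b 0, a 1, b 1, …` with `a i ≤ b k` exactly when `i = k` or `i = k + 1`. -/
def IsGon {P : Type} [PartialOrder P] (rank : P → ℤ) (S : Set P) (j : ℤ) (n : ℕ) : Prop :=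
  ∃ a b : ZMod n → P, Function.Injective a ∧ Function.Injective b ∧
    Set.range a = {x | x ∈ S ∧ rank x = j} ∧ Set.range b = {x | x ∈ S ∧ rank x = j + 1} ∧
    ∀ i k, a i ≤ b k ↔ (i = k ∨ i = k + 1)

/-- Every 2-face is a `p`-gon and every vertex-figure is a `q`-gon. -/
def Equivelar {P : Type} [PartialOrder P] (rank : P → ℤ) (p q : ℕ) : Prop :=
  (∀ F, rank F = 2 → IsGon rank {H | H ≤ F} 0 p) ∧ ∀ v, rank v = 0 → IsGon rank {H | v ≤ H} 1 q

/-- A duality: an order-reversing bijection. -/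
def IsDuality {P : Type} [PartialOrder P] (δ : P ≃ P) : Prop :=
  ∀ F G : P, F ≤ G ↔ δ G ≤ δ F

end Pool.Agent.H11.Pol
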