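import Mathlib
import Pool.Agent.H11.Pol.Defs
import Pool.Agent.H11.Pol.Data

namespace Pool.Agent.H11.Pol

def L6 : List (Fin 6) := [0, 1, 2, 3, 4, 5]

lemma mem_L6 : ∀ a : Fin 6, a ∈ L6 := by decide

def bad (p : Fin 6 → Fin 6) : Bool :=
  L6.any fun a => L6.any fun b => L6.any fun c =>
    L6.any fun d => qb a b (p c) (p d) && !qb c d (p a) (p b)

lemma t_nopol : (L6.all fun p0 => L6.all fun p1 => p0 == p1 || L6.all fun p2 =>
    p0 == p2 || p1 == p2 || L6.all fun p3 => p0 == p3 || p1 == p3 || p2 == p3 || L6.all fun p4 =>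
    p0 == p4 || p1 == p4 || p2 == p4 || p3 == p4 || L6.all fun p5 =>
    p0 == p5 || p1 == p5 || p2 == p5 || p3 == p5 || p4 == p5 ||
    bad ![p0, p1, p2, p3, p4, p5]) = true := by decide +kernel

lemma nopol (p : Fin 6 → Fin 6) (hp : Function.Injective p) :
    ∃ a b c d : Fin 6, qb a b (p c) (p d) = true ∧ ¬ qb c d (p a) (p b) = true := by
  have h := t_nopol
  simp only [List.all_eq_true, Bool.or_eq_true, beq_iff_eq] at h
  have ne : ∀ i j : Fin 6, i ≠ j → ¬ p i = p j := fun i j hij e => hij (hp e)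
  have h1 := (h (p 0) (mem_L6 _) (p 1) (mem_L6 _)).resolve_left (ne _ _ (by decide))
  have h2 := (h1 (p 2) (mem_L6 _)).resolve_left (by
    simp only [not_or]; exact ⟨ne _ _ (by decide), ne _ _ (by decide)⟩)
  have h3 := (h2 (p 3) (mem_L6 _)).resolve_left (by
    simp only [not_or]; exact ⟨⟨ne _ _ (by decide), ne _ _ (by decide)⟩, ne _ _ (by decide)⟩)
  have h4 := (h3 (p 4) (mem_L6 _)).resolve_left (by
    simp only [not_or]
    exact ⟨⟨⟨ne _ _ (by decide), ne _ _ (by decide)⟩, ne _ _ (by decide)⟩, ne _ _ (by decide)⟩)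
  have h5 := (h4 (p 5) (mem_L6 _)).resolve_left (by
    simp only [not_or]
    exact ⟨⟨⟨⟨ne _ _ (by decide), ne _ _ (by decide)⟩, ne _ _ (by decide)⟩, ne _ _ (by decide)⟩,
      ne _ _ (by decide)⟩)
  have e : ![p 0, p 1, p 2, p 3, p 4, p 5] = p := by
    funext i; fin_cases i <;> rfl
  rw [e] at h5
  simp only [bad, List.any_eq_true, Bool.and_eq_true, Bool.not_eq_true'] at h5
  obtain ⟨a, -, b, -, c, -, d, -, h6, h7⟩ := h5
  exact ⟨a, b, c, d, h6, by simp [h7]⟩

def Pl : Type := Fin 29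

instance : Fintype Pl := inferInstanceAs (Fintype (Fin 29))

instance : PartialOrder Pl where
  le x y := leb x y = true
  le_refl := t_refl
  le_trans := t_trans
  le_antisymm := fun x y h1 h2 => by
    rcases t_mono x y h1 with h | h
    · exact h
    · rcases t_mono y x h2 with h' | h'
      · exact h'.symm
      · omega

lemma le_def (x y : Pl) : x ≤ y ↔ leb x y = true := Iff.rfl

def rank : Pl → ℤ := rk

def FS (i : Fin 60) : Set Pl := {x | mem i x = true}

lemma rank_mono : StrictMono rank := by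
  intro x y h
  rcases t_mono x y h.le with e | e
  · exact absurd e h.ne
  · exact e

lemma ncard_filter (p : Fin 29 → Prop) [DecidablePred p] (S : Set Pl) (h : ∀ x, x ∈ S ↔ p x) :
    S.ncard = (Finset.univ.filter p).card := by
  have : S = ((Finset.univ.filter p : Finset (Fin 29)) : Set (Fin 29)) := by
    ext x
    rw [h]
    exact ⟨fun hx => Finset.mem_coe.mpr (Finset.mem_filter.mpr ⟨Finset.mem_univ _, hx⟩),
      fun hx => (Finset.mem_filter.mp (Finset.mem_coe.mp hx)).2⟩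
  rw [this]
  exact Set.ncard_coe_finset _

lemma FS_chain (i : Fin 60) : IsChain (· ≤ ·) (FS i) := fun x hx y hy _ => t_chain i x y hx hy

lemma FS_max (i : Fin 60) : IsMaxChain (· ≤ ·) (FS i) := by
  refine ⟨FS_chain i, fun T hT hsub => Set.Subset.antisymm hsub (fun x hx => ?_)⟩
  rcases t_max i x with h | ⟨y, hy, h1, h2⟩
  · exact h
  · exfalso
    by_cases e : x = y
    · subst e
      rw [t_refl] at h1
      exact absurd h1 (by simp)
    · rcases hT hx (hsub hy) e with h | h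
      · have h' : leb x y = true := h
        rw [h1] at h'; exact absurd h' (by simp)
      · have h' : leb y x = true := h
        rw [h2] at h'; exact absurd h' (by simp)

lemma max_eq (Φ : Set Pl) (h : IsMaxChain (· ≤ ·) Φ) : ∃ i, Φ = FS i := by
  have pick : ∀ r : ℤ, ∃ x : Pl, (∀ w ∈ Φ, w ≤ x ∨ x ≤ w) ∧ (x ∈ Φ ∨ ∀ y, x ≤ y) ∧
      ∀ w ∈ Φ, rank w = r → w = x := by
    intro r
    by_cases hr : ∃ x ∈ Φ, rank x = r
    · obtain ⟨x, hx, hxr⟩ := hr
      have hc : ∀ w ∈ Φ, w ≤ x ∨ x ≤ w := fun w hw => h.1.total hw hx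
      refine ⟨x, hc, Or.inl hx, fun w hw hwr => ?_⟩
      by_contra hne
      rcases hc w hw with h1 | h1
      · have := rank_mono (lt_of_le_of_ne h1 hne); omega
      · have := rank_mono (lt_of_le_of_ne h1 (Ne.symm hne)); omega
    · exact ⟨(0 : Fin 29), fun w _ => Or.inr (t_bot w), Or.inr t_bot,
        fun w hw hwr => absurd ⟨w, hw, hwr⟩ hr⟩
  obtain ⟨x, hx1, hx2, hx3⟩ := pick 0
  obtain ⟨y, hy1, hy2, hy3⟩ := pick 1
  obtain ⟨z, hz1, hz2, hz3⟩ := pick 2
  have cmp : ∀ a b : Pl, (a ∈ Φ ∨ ∀ y, a ≤ y) → (∀ w ∈ Φ, w ≤ b ∨ b ≤ w) →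
      (leb a b || leb b a) = true := by
    intro a b ha hb
    rw [Bool.or_eq_true]
    rcases ha with ha | ha
    · exact hb a ha
    · exact Or.inl (ha b)
  obtain ⟨i, h1, h2, h3⟩ := t_ext x y z (cmp x y hx2 hy1) (cmp x z hx2 hz1) (cmp y z hy2 hz1)
  refine ⟨i, h.2 (FS_chain i) (fun w hw => ?_)⟩
  rcases t_rk w with e | e | e | e | e
  · rw [e.2]; exact (t_mem0 i).1
  · rw [hx3 w hw e]; exact h1
  · rw [hy3 w hw e]; exact h2
  · rw [hz3 w hw e]; exact h3
  · rw [e.2]; exact (t_mem0 i).2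

lemma path (S : Set Pl) (j : Fin 60) (hj : S ⊆ FS j) : ∀ (n : ℕ) (i : Fin 60), dst i j < n →
    S ⊆ FS i → Relation.ReflTransGen
      (fun A B : Set Pl => IsMaxChain (· ≤ ·) B ∧ S ⊆ B ∧ (A \ B).ncard = 1 ∧ (B \ A).ncard = 1)
      (FS i) (FS j) := by
  intro n
  induction n with
  | zero => intro i h; omega
  | succ n ih =>
    intro i h hi
    rcases t_step i j with e | ⟨h1, h2, h3, h4⟩
    · rw [e]
    · have hs : S ⊆ FS (nxt i j) := fun x hx => h2 x (hi hx) (hj hx)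
      refine Relation.ReflTransGen.head ⟨FS_max _, hs, ?_, ?_⟩ (ih _ (by omega) hs)
      · rw [← h3]; exact ncard_filter _ _ (fun x => Iff.rfl)
      · rw [← h4]; exact ncard_filter _ _ (fun x => Iff.rfl)

lemma isPoly : IsPolyhedron Pl rank where
  mono := rank_mono
  onto := by
    ext r
    constructor
    · rintro ⟨x, rfl⟩
      rcases t_rk x with e | e | e | e | e
      · exact Or.inl e.1
      · exact Or.inr (Or.inl e)
      · exact Or.inr (Or.inr (Or.inl e))
      · exact Or.inr (Or.inr (Or.inr (Or.inl e)))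
      · exact Or.inr (Or.inr (Or.inr (Or.inr e.1)))
    · rintro (rfl | rfl | rfl | rfl | rfl)
      · exact ⟨(0 : Fin 29), rfl⟩
      · exact ⟨(1 : Fin 29), rfl⟩
      · exact ⟨(7 : Fin 29), rfl⟩
      · exact ⟨(22 : Fin 29), rfl⟩
      · exact ⟨(28 : Fin 29), rfl⟩
  least := ⟨(0 : Fin 29), t_bot, fun y hy => le_antisymm (hy _) (t_bot y)⟩
  greatest := ⟨(28 : Fin 29), t_top, fun y hy => le_antisymm (t_top y) (hy _)⟩
  flag_card := by
    intro Φ h
    obtain ⟨i, rfl⟩ := max_eq Φ h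
    rw [← t_card i]; exact ncard_filter _ _ (fun x => Iff.rfl)
  diamond := by
    intro F G j h h1 h2
    have e1 : rk F = j - 1 := h1
    have e2 : rk G = j + 1 := h2
    rw [← t_diamond F G h (by omega)]
    refine ncard_filter _ _ (fun x => ?_)
    have : rk F + 1 = j := by omega
    rw [this]
    exact Iff.rfl
  connected := by
    intro Φ Ψ h1 h2
    obtain ⟨i, rfl⟩ := max_eq Φ h1
    obtain ⟨j, rfl⟩ := max_eq Ψ h2
    exact path _ j Set.inter_subset_right _ i (Nat.lt_succ_self _) Set.inter_subset_left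

lemma equiv55 : Equivelar rank 5 5 := by
  constructor
  · intro F hF
    obtain ⟨f, rfl⟩ := t_face F hF
    obtain ⟨h1, h2, h3, h4, h5⟩ := t_fg f
    exact ⟨fga f, fgb f, fun i k => h1 i k, fun i k => h2 i k, Set.ext (fun x => h3 x),
      Set.ext (fun x => h4 x), h5⟩
  · intro F hF
    obtain ⟨f, rfl⟩ := t_vert F hF
    obtain ⟨h1, h2, h3, h4, h5⟩ := t_vg f
    exact ⟨vga f, vgb f, fun i k => h1 i k, fun i k => h2 i k, Set.ext (fun x => h3 x),
      Set.ext (fun x => h4 x), h5⟩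

def dual : Pl ≃ Pl := ⟨dl, dlinv, t_inv.1, t_inv.2⟩

lemma no_polarity (δ : Pl ≃ Pl) (hδ : IsDuality δ) : ¬ ∀ F, δ (δ F) = F := by
  intro h2
  have hlt : ∀ x y : Pl, x ≤ y → x ≠ y → rk (δ y) < rk (δ x) := by
    intro x y h hne
    exact rank_mono (lt_of_le_of_ne ((hδ x y).mp h) (fun e => hne (δ.injective e).symm))
  have hb : ∀ x, -1 ≤ rk x ∧ rk x ≤ 3 := by
    intro x
    rcases t_rk x with e | e | e | e | e <;> omega
  have hf : ∀ a : Fin 6, ∃ c, δ (vt a) = fc c := by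
    intro a
    obtain ⟨e, f, h1, h3, h4, h5, h6, h7⟩ := t_up a
    have k1 := hlt (0 : Fin 29) (vt a) (t_bot _) h4.symm
    have k2 := hlt (vt a) e h1 h5
    have k3 := hlt e f h3 h6
    have k4 := hlt f (28 : Fin 29) (t_top _) h7
    have b1 := hb (δ (0 : Fin 29))
    have b2 := hb (δ (28 : Fin 29))
    exact t_face _ (by omega)
  choose p hp using hf
  have hp' : ∀ a, δ (fc (p a)) = vt a := fun a => by rw [← hp, h2]
  have hinj : Function.Injective p := by
    intro a b e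
    apply t_vtinj
    rw [← hp' a, ← hp' b, e]
  obtain ⟨a, b, c, d, h3, h4⟩ := nopol p hinj
  apply h4
  obtain ⟨e, e1, e2, e3, e4⟩ := (t_q _ _ _ _).mp h3
  refine (t_q _ _ _ _).mpr ⟨δ e, ?_, ?_, ?_, ?_⟩
  · rw [← hp' c]; exact (hδ e (fc (p c))).mp e3
  · rw [← hp' d]; exact (hδ e (fc (p d))).mp e4
  · rw [← hp a]; exact (hδ (vt a) e).mp e1
  · rw [← hp b]; exact (hδ (vt b) e).mp e2

theorem main : ∃ (P : Type) (_ : PartialOrder P) (rank : P → ℤ), Finite P ∧
    IsPolyhedron P rank ∧ Equivelar rank 5 5 ∧ (∃ δ : P ≃ P, IsDuality δ) ∧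
    ∀ δ : P ≃ P, IsDuality δ → ¬ ∀ F, δ (δ F) = F :=
  ⟨Pl, inferInstance, rank, inferInstance, isPoly, equiv55, ⟨dual, t_dual⟩, no_polarity⟩

end Pool.Agent.H11.Pol
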